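import Pool.Agent.H93.FB.Targets

/-! Module F-ACE of MP_2059f1_ag. -/

open Topology Set
open scoped unitInterval ContinuousMap
open Pool.Agent.H59 Pool.Agent.H64.LB Pool.Agent.H93.FB

namespace Pool.Agent.H97.LB

theorem ace (hHI : Pool.Agent.H64.LB.T_HI) : T_ACE := by
  intro A B _ _ _ f a0 R j hj n s z hz
  obtain ⟨i, hi⟩ := R.dom s
  obtain ⟨y, hy⟩ := hj (pf ℚ (j + 1) (R.r s) z) (by rw [bd_pf, hz, map_zero])
  obtain ⟨P, -, hP⟩ := hHI ℚ (Es f a0 s) (Es f a0 s) (i.comp (R.r s)) (ContinuousMap.id _) hi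
  refine ⟨pf ℚ (j + 2) i y - P (j + 1) z, ?_⟩
  rw [map_sub, bd_pf, hy, hP, hz, map_zero, HH.pf_comp, HH.pf_id]
  abel

end Pool.Agent.H97.LB
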