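import Pool.Agent.H97.LB.VEZ

/-! Module F-FV of MP_2059f1_ag. -/

open Topology Set
open scoped unitInterval ContinuousMap
open Pool.Agent.H59 Pool.Agent.H64.LB Pool.Agent.H93.FB

namespace Pool.Agent.H97.LB

noncomputable section

/-- the constant simplex of the universal cover -/
def kst {B : Type} [TopologicalSpace B] (b0 : B) (n : ℕ) : CS b0 n := Leg.cst (BT.one b0) (Dl n)

theorem cfc_kst {B : Type} [TopologicalSpace B] (b0 : B) (n : ℕ) (i : Fin (n + 1)) :
    cfc (kst b0 (n + 1)) i = kst b0 n := rfl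

theorem cbd_kst {B : Type} [TopologicalSpace B] (b0 : B) (n : ℕ) (r : ℚ) :
    cbd b0 n (Finsupp.single (kst b0 (n + 1)) r) =
      Finsupp.single (kst b0 n) (r * if Even (n + 1) then 0 else 1) := by
  rw [cbd_single]
  simp only [cfc_kst]
  rw [← Finset.sum_smul, Fin.sum_neg_one_pow, smul_smul, Finsupp.smul_single, smul_eq_mul, mul_one]

variable {A B : Type} [TopologicalSpace A] [TopologicalSpace B] {f : C(A, B)} {a0 : A}
  [SimplyConnectedSpace A]

theorem prS_je {n : ℕ} (e : Smp n (F0 f a0)) : prS f a0 (je e) = kst (f a0) n :=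
  Leg.ext' (fun t => (e t).2)

/-- the coefficient sum -/
def cs (n : ℕ) (X : Type) [TopologicalSpace X] : Ch ℚ n X →ₗ[ℚ] ℚ :=
  Finsupp.linearCombination ℚ (fun _ => (1 : ℚ))

theorem prC_je {n : ℕ} (x : Ch ℚ n (F0 f a0)) :
    prC f a0 n (pf ℚ n (F0.inc f a0) x) = Finsupp.single (kst (f a0) n) (cs n (F0 f a0) x) := by
  induction x using Finsupp.induction_linear with
  | zero => rw [map_zero, map_zero, map_zero, Finsupp.single_zero]
  | add u v hu hv => rw [map_add, map_add, map_add, hu, hv, Finsupp.single_add]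
  | single e r =>
    rw [pf_single, prC_single, cs, Finsupp.linearCombination_single, smul_eq_mul, mul_one]
    change Finsupp.single (prS f a0 (je e)) r = _
    rw [prS_je]

theorem fv (hTOP : T_TOP) (hACE : T_ACE) (hPHI : T_PHI) (hDH : T_DH) (hTHE : T_THE)
    (hVEE : T_VEE) (hVEZ : T_VEZ) : T_FV := by
  intro A B _ _ _ f a0 m hm hac h1 h2 z hz
  obtain ⟨R⟩ := hTOP A B f a0
  have hE : ∀ j < m, ∀ (n : ℕ) (s : CS (f a0) (n + 1)), Acyc ℚ j (Es f a0 s) :=
    fun j hj n s => hACE A B f a0 R j (hac j hj) n s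
  have hne : ∀ (n : ℕ) (s : CS (f a0) (n + 1)), Nonempty (Es f a0 s) := by
    intro n s
    obtain ⟨i, -⟩ := R.dom s
    exact ⟨i (star f a0)⟩
  obtain ⟨P⟩ := hPHI A B f a0 m hE hne
  obtain ⟨D⟩ := hDH A B f a0 m hE P
  have hp : ∀ x : Ch ℚ (m + 1) (F0 f a0), prC f a0 (m + 1) (pf ℚ (m + 1) (F0.inc f a0) x) =
      Finsupp.single (kst (f a0) (m + 1)) (cs (m + 1) (F0 f a0) x) := fun x => prC_je x
  -- the constant part
  have hc : ∃ c : ℚ, cbd (f a0) (m + 1) (Finsupp.single (kst (f a0) (m + 2)) c) =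
      Finsupp.single (kst (f a0) (m + 1)) (cs (m + 1) (F0 f a0) z) := by
    rcases Nat.even_or_odd m with he | ho
    · have h3 : cbd (f a0) m (prC f a0 (m + 1) (pf ℚ (m + 1) (F0.inc f a0) z)) = 0 := by
        rw [cbd_prC, bd_pf, hz, map_zero, map_zero]
      rw [hp, cbd_kst, if_neg (by rw [Nat.not_even_iff_odd]; exact he.add_one), mul_one,
        Finsupp.single_eq_zero] at h3
      refine ⟨0, ?_⟩
      rw [h3, Finsupp.single_zero, Finsupp.single_zero, map_zero]
    · refine ⟨cs (m + 1) (F0 f a0) z, ?_⟩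
      rw [cbd_kst, if_neg (by
        rw [Nat.not_even_iff_odd]
        exact ho.add_one.add_one), mul_one]
  obtain ⟨c, hc⟩ := hc
  obtain ⟨y, hy⟩ := h1 (pf ℚ (m + 1) (F0.inc f a0) z) (by rw [bd_pf, hz, map_zero])
    ⟨_, hc.trans (hp z).symm⟩
  obtain ⟨x, u, hx, hu⟩ := h2 (prC f a0 (m + 2) y - Finsupp.single (kst (f a0) (m + 2)) c) (by
    rw [map_sub, cbd_prC, hy, hp, hc, sub_self])
  have hZ : z ∈ ZZ ℚ m (F0 f a0) := mem_ZZ_of_bd ℚ hz
  have h4 : thet f a0 R P (Finsupp.single (kst (f a0) (m + 2)) c) = 0 := by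
    have h5 : (Finsupp.single (kst (f a0) (m + 2)) c : CC (f a0) (m + 2)) =
        c • Finsupp.single (kst (f a0) (m + 2)) 1 := by
      rw [Finsupp.smul_single, smul_eq_mul, mul_one]
    rw [h5, map_smul, (hTHE A B f a0 R m P hm).2 (kst (f a0) (m + 2)) (fun t => rfl), smul_zero]
  have h6 : thet f a0 R P (prC f a0 (m + 2) y) = 0 := by
    have h7 : prC f a0 (m + 2) y = (prC f a0 (m + 2) x + cbd (f a0) (m + 2) u) +
        Finsupp.single (kst (f a0) (m + 2)) c := by
      rw [← hu, sub_add_cancel]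
    have h8 := hVEE A B f a0 R m P D hm x
    rw [hx, map_zero] at h8
    rw [h7, map_add, map_add, (hTHE A B f a0 R m P hm).1, h4, add_zero, add_zero]
    exact (neg_eq_zero.1 h8.symm)
  have h9 : HH.mk ℚ m (F0 f a0) ⟨z, hZ⟩ = 0 := by
    rw [← hVEZ A B f a0 R m P D hm ⟨z, hZ⟩]
    change vee f a0 R P D (pf ℚ (m + 1) (F0.inc f a0) z) = 0
    rw [← hy, hVEE A B f a0 R m P D hm y, h6, neg_zero]
  rw [HH.mk_eq_zero_iff] at h9
  exact h9

end

end Pool.Agent.H97.LB
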