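import Pool.Agent.H97.LB.Kl

/-! Module F-VEE of MP_2059f1_ag. -/

open Topology Set
open scoped unitInterval ContinuousMap
open Pool.Agent.H59 Pool.Agent.H64.LB Pool.Agent.H93.FB

namespace Pool.Agent.H97.LB

noncomputable section

variable {A B : Type} [TopologicalSpace A] [TopologicalSpace B] {f : C(A, B)} {a0 : A}
  [SimplyConnectedSpace A]

theorem cc_mem {m : ℕ} (hm : 1 ≤ m) (P : Phi f a0 m) (D : DH f a0 P) (e : Smp (m + 1) (EE f)) :
    cc P D e ∈ ZZ ℚ m (Es f a0 (prS f a0 e)) :=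
  mem_ZZ_of_bd ℚ (bd_cc hm P D e)

theorem vee_single (R : RR f a0) {m : ℕ} (P : Phi f a0 m) (D : DH f a0 P)
    (e : Smp (m + 1) (EE f)) (r : ℚ) :
    vee f a0 R P D (Finsupp.single e r) =
      r • kl m (pf ℚ (m + 1) (R.r (prS f a0 e)) (cc P D e)) := by
  rw [vee, Finsupp.linearCombination_single]
  rfl

theorem thet_single (R : RR f a0) {m : ℕ} (P : Phi f a0 m) (s : CS (f a0) (m + 2)) (r : ℚ) :
    thet f a0 R P (Finsupp.single s r) =
      r • kl m (pf ℚ (m + 1) (R.r s) (dphi f a0 P.φ (m + 1) s)) := by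
  rw [thet, Finsupp.linearCombination_single]

/-- the alternating sum of the difference chains of the faces -/
theorem sum_cc {m : ℕ} (P : Phi f a0 m) (D : DH f a0 P) (e : Smp (m + 2) (EE f)) :
    ∑ i : Fin (m + 2), (-1 : ℚ) ^ (i : ℕ) • pf ℚ (m + 1) (emf f a0 e i) (cc P D (fc e i)) =
      bd ℚ (m + 1) (Es f a0 (prS f a0 e)) (Finsupp.single (tau f a0 e) 1) -
        dphi f a0 P.φ (m + 1) (prS f a0 e) := by
  have h1 : ∀ i : Fin (m + 2), (-1 : ℚ) ^ (i : ℕ) •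
      pf ℚ (m + 1) (emf f a0 e i) (cc P D (fc e i)) =
      (-1 : ℚ) ^ (i : ℕ) • pf ℚ (m + 1) (emf f a0 e i) (Finsupp.single (tau f a0 (fc e i)) 1) -
      (-1 : ℚ) ^ (i : ℕ) • pf ℚ (m + 1) (emf f a0 e i) (P.φ (m + 1) (prS f a0 (fc e i))) -
      (-1 : ℚ) ^ (i : ℕ) • pf ℚ (m + 1) (emf f a0 e i) (dD f a0 D.D m (fc e i)) := by
    intro i
    rw [cc, map_sub, map_sub, smul_sub, smul_sub]
  rw [Finset.sum_congr rfl (fun i _ => h1 i), Finset.sum_sub_distrib, Finset.sum_sub_distrib,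
    sum_dD, sum_tau, sub_zero]
  rfl

theorem vee_main (hHM : Pool.Agent.H64.LB.T_HM) : T_VEE := by
  intro A B _ _ _ f a0 R m P D hm y
  induction y using Finsupp.induction_linear with
  | zero => rw [map_zero, map_zero, map_zero, map_zero, neg_zero]
  | add u v hu hv => rw [map_add, map_add, map_add, map_add, hu, hv, neg_add]
  | single e r =>
    rw [bd_single, prC_single, thet_single, map_smul, map_sum, ← smul_neg]
    congr 1
    have hface : ∀ i : Fin (m + 2), kl m (pf ℚ (m + 1) (R.r (prS f a0 (fc e i)))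
        (cc P D (fc e i))) =
        kl m (pf ℚ (m + 1) (R.r (prS f a0 e))
          (pf ℚ (m + 1) (emf f a0 e i) (cc P D (fc e i)))) := by
      intro i
      rw [← HH.pf_comp]
      exact (kl_homotopic hHM (R.face (prS f a0 e) i) (cc_mem hm P D (fc e i))).symm
    have hmem : ∀ i : Fin (m + 2), (-1 : ℚ) ^ (i : ℕ) •
        pf ℚ (m + 1) (emf f a0 e i) (cc P D (fc e i)) ∈ ZZ ℚ m (Es f a0 (prS f a0 e)) :=
      fun i => Submodule.smul_mem _ _ (HH.pf_mem_ZZ ℚ _ (cc_mem hm P D (fc e i)))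
    have h1 : ∑ i : Fin (m + 2), vee f a0 R P D ((-1 : ℚ) ^ (i : ℕ) •
        Finsupp.single (fc e i) (1 : ℚ)) =
        kl m (pf ℚ (m + 1) (R.r (prS f a0 e)) (∑ i : Fin (m + 2), (-1 : ℚ) ^ (i : ℕ) •
          pf ℚ (m + 1) (emf f a0 e i) (cc P D (fc e i)))) := by
      rw [map_sum, kl_sum _ _ (fun i _ => HH.pf_mem_ZZ ℚ _ (hmem i))]
      refine Finset.sum_congr rfl (fun i _ => ?_)
      rw [map_smul, map_smul, vee_single, one_smul, hface i, kl_smul]
      exact HH.pf_mem_ZZ ℚ _ (HH.pf_mem_ZZ ℚ _ (cc_mem hm P D (fc e i)))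
    have h2 := sum_cc P D e
    have hcyc : dphi f a0 P.φ (m + 1) (prS f a0 e) ∈ ZZ ℚ m (Es f a0 (prS f a0 e)) := by
      have h3 : dphi f a0 P.φ (m + 1) (prS f a0 e) =
          bd ℚ (m + 1) (Es f a0 (prS f a0 e)) (Finsupp.single (tau f a0 e) 1) -
          ∑ i : Fin (m + 2), (-1 : ℚ) ^ (i : ℕ) •
            pf ℚ (m + 1) (emf f a0 e i) (cc P D (fc e i)) := by
        rw [h2]; abel
      rw [h3]
      exact Submodule.sub_mem _ (bd_mem_ZZ _) (Submodule.sum_mem _ (fun i _ => hmem i))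
    rw [h1, h2, map_sub, kl_sub (HH.pf_mem_ZZ ℚ _ (bd_mem_ZZ _)) (HH.pf_mem_ZZ ℚ _ hcyc),
      ← bd_pf, kl_bd, zero_sub]

end

end Pool.Agent.H97.LB
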