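import Pool.Agent.H97.LB.VEE

/-! Module F-VEZ of MP_2059f1_ag. -/

open Topology Set
open scoped unitInterval ContinuousMap
open Pool.Agent.H59 Pool.Agent.H64.LB Pool.Agent.H93.FB

namespace Pool.Agent.H97.LB

noncomputable section

variable {A B : Type} [TopologicalSpace A] [TopologicalSpace B] {f : C(A, B)} {a0 : A}
  [SimplyConnectedSpace A]

/-- a simplex of the fibre as a simplex of the path space -/
def je {n : ℕ} (e : Smp n (F0 f a0)) : Smp n (EE f) := (F0.inc f a0).comp e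

theorem isK_je {n : ℕ} (e : Smp n (F0 f a0)) : IsK f a0 (prS f a0 (je e)) := fun t => (e t).2

/-- the projection of the homotopy of a simplex of the fibre -/
def dl {m : ℕ} {P : Phi f a0 m} (D : DH f a0 P) (n : ℕ) (e : Smp n (F0 f a0)) :
    Ch ℚ (n + 1) (F0 f a0) :=
  pf ℚ (n + 1) (prK f a0 (prS f a0 (je e)) (isK_je e)) (D.D n (je e))

theorem prK_tau {n : ℕ} (e : Smp n (F0 f a0)) :
    (prK f a0 (prS f a0 (je e)) (isK_je e)).comp (tau f a0 (je e)) = e := rfl

theorem prK_kap {n : ℕ} (e : Smp n (F0 f a0)) :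
    (prK f a0 (prS f a0 (je e)) (isK_je e)).comp (kap f a0 (prS f a0 (je e)) (isK_je e)) =
      (ContinuousMap.const (F0 f a0) (star f a0)).comp e := rfl

theorem pf_prK_emf {m : ℕ} {P : Phi f a0 m} (D : DH f a0 P) {n : ℕ} (e : Smp (n + 1) (F0 f a0))
    (i : Fin (n + 1)) :
    pf ℚ (n + 1) (prK f a0 (prS f a0 (je e)) (isK_je e))
      (pf ℚ (n + 1) (emf f a0 (je e) i) (D.D n (fc (je e) i))) = dl D n (fc e i) := by
  rw [← HH.pf_comp]
  rfl

theorem pf_prK_cc {m : ℕ} (P : Phi f a0 m) (D : DH f a0 P) (e : Smp (m + 1) (F0 f a0)) :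
    pf ℚ (m + 1) (prK f a0 (prS f a0 (je e)) (isK_je e)) (cc P D (je e)) =
      Finsupp.single e 1 -
        pf ℚ (m + 1) (ContinuousMap.const (F0 f a0) (star f a0)) (Finsupp.single e 1) -
        ∑ i : Fin (m + 1), (-1 : ℚ) ^ (i : ℕ) • dl D m (fc e i) := by
  rw [cc, map_sub, map_sub, P.kap (m + 1) _ (isK_je e), pf_single, pf_single, pf_single, prK_tau,
    prK_kap, dD_eq, map_sum]
  congr 1
  refine Finset.sum_congr rfl (fun i _ => ?_)
  rw [map_smul, pf_prK_emf]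

theorem map_const_eq_zero (hDI : Pool.Agent.H64.LB.T_DI) {X : Type} [TopologicalSpace X] (x : X)
    (q : ℕ) (z : HH ℚ (q + 1) X) : HH.map ℚ (q + 1) (ContinuousMap.const X x) z = 0 := by
  have h1 : ContinuousMap.const X x =
      (ContinuousMap.const Unit x).comp (ContinuousMap.const X ()) := rfl
  have h2 : Subsingleton (HH ℚ (q + 1) Unit) := (hDI ℚ Unit).1 inferInstance q
  rw [h1, HH.map_comp, Subsingleton.elim (HH.map ℚ (q + 1) (ContinuousMap.const X ()) z) 0,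
    map_zero]

theorem vez (hHM : Pool.Agent.H64.LB.T_HM) (hDI : Pool.Agent.H64.LB.T_DI) : T_VEZ := by
  intro A B _ _ _ f a0 R m P D hm z
  let dl' : Ch ℚ m (F0 f a0) →ₗ[ℚ] Ch ℚ (m + 1) (F0 f a0) :=
    Finsupp.linearCombination ℚ (fun e : Smp m (F0 f a0) => dl D m e)
  let cst : C(F0 f a0, F0 f a0) := ContinuousMap.const (F0 f a0) (star f a0)
  let Ψ : Ch ℚ (m + 1) (F0 f a0) →ₗ[ℚ] Ch ℚ (m + 1) (F0 f a0) :=
    LinearMap.id - pf ℚ (m + 1) cst - dl'.comp (bd ℚ m (F0 f a0))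
  have hΨ : ∀ x, Ψ x = x - pf ℚ (m + 1) cst x - dl' (bd ℚ m (F0 f a0) x) := fun x => rfl
  have hs : ∀ e : Smp (m + 1) (F0 f a0), Ψ (Finsupp.single e 1) =
      pf ℚ (m + 1) (prK f a0 (prS f a0 (je e)) (isK_je e)) (cc P D (je e)) := by
    intro e
    rw [pf_prK_cc, hΨ]
    congr 1
    rw [bd_single, one_smul, map_sum]
    refine Finset.sum_congr rfl (fun i _ => ?_)
    rw [map_smul]
    congr 1
    change Finsupp.linearCombination ℚ (fun e : Smp m (F0 f a0) => dl D m e) _ = _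
    rw [Finsupp.linearCombination_single, one_smul]
  have hsm : ∀ e : Smp (m + 1) (F0 f a0), Ψ (Finsupp.single e 1) ∈ ZZ ℚ m (F0 f a0) := by
    intro e
    rw [hs]
    exact HH.pf_mem_ZZ ℚ _ (cc_mem hm P D (je e))
  have key : ∀ x : Ch ℚ (m + 1) (F0 f a0), Ψ x ∈ ZZ ℚ m (F0 f a0) ∧
      vee f a0 R P D (pf ℚ (m + 1) (F0.inc f a0) x) = kl m (Ψ x) := by
    intro x
    induction x using Finsupp.induction_linear with
    | zero =>
      rw [map_zero, map_zero, map_zero, kl_zero]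
      exact ⟨Submodule.zero_mem _, rfl⟩
    | add u v hu hv =>
      rw [map_add, map_add, map_add, kl_add hu.1 hv.1, hu.2, hv.2]
      exact ⟨Submodule.add_mem _ hu.1 hv.1, rfl⟩
    | single e r =>
      have h1 : (Finsupp.single e r : Ch ℚ (m + 1) (F0 f a0)) = r • Finsupp.single e 1 := by
        rw [Finsupp.smul_single, smul_eq_mul, mul_one]
      rw [h1, map_smul, map_smul, map_smul, kl_smul r (hsm e)]
      refine ⟨Submodule.smul_mem _ _ (hsm e), ?_⟩
      congr 1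
      rw [pf_single]
      change vee f a0 R P D (Finsupp.single (je e) 1) = _
      rw [vee_single, one_smul, hs]
      exact kl_homotopic hHM (R.kk (prS f a0 (je e)) (isK_je e)) (cc_mem hm P D (je e))
  obtain ⟨q, rfl⟩ : ∃ q, m = q + 1 := ⟨m - 1, by omega⟩
  have hz : bd ℚ (q + 1) (F0 f a0) z.1 = 0 := z.2
  rw [(key z.1).2, hΨ, hz, map_zero, sub_zero, kl_sub z.2 (HH.pf_mem_ZZ ℚ cst z.2), kl_pf cst z.2,
    kl_of_mem z.2]
  change _ - HH.map ℚ (q + 1) (ContinuousMap.const (F0 f a0) (star f a0)) _ = _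
  rw [map_const_eq_zero hDI, sub_zero]

end

end Pool.Agent.H97.LB
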