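import Pool.Agent.H93.FB.Targets

/-! Common lemmas for the modules F-VEE, F-VEZ of MP_2059f1_ag. -/

open Topology Set
open scoped unitInterval ContinuousMap
open Pool.Agent.H59 Pool.Agent.H64.LB Pool.Agent.H93.FB

namespace Pool.Agent.H97.LB

section kl

variable {X X' : Type} [TopologicalSpace X] [TopologicalSpace X']

theorem kl_of_mem {m : ℕ} {x : Ch ℚ (m + 1) X} (h : x ∈ ZZ ℚ m X) :
    kl m x = HH.mk ℚ m X ⟨x, h⟩ := by
  rw [kl, dif_pos h]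

theorem kl_add {m : ℕ} {x y : Ch ℚ (m + 1) X} (hx : x ∈ ZZ ℚ m X) (hy : y ∈ ZZ ℚ m X) :
    kl m (x + y) = kl m x + kl m y := by
  rw [kl_of_mem hx, kl_of_mem hy, kl_of_mem (Submodule.add_mem _ hx hy), ← map_add]
  rfl

theorem kl_sub {m : ℕ} {x y : Ch ℚ (m + 1) X} (hx : x ∈ ZZ ℚ m X) (hy : y ∈ ZZ ℚ m X) :
    kl m (x - y) = kl m x - kl m y := by
  rw [kl_of_mem hx, kl_of_mem hy, kl_of_mem (Submodule.sub_mem _ hx hy), ← map_sub]
  rfl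

theorem kl_smul {m : ℕ} {x : Ch ℚ (m + 1) X} (r : ℚ) (hx : x ∈ ZZ ℚ m X) :
    kl m (r • x) = r • kl m x := by
  rw [kl_of_mem hx, kl_of_mem (Submodule.smul_mem _ r hx), ← map_smul]
  rfl

theorem kl_zero {m : ℕ} : kl m (0 : Ch ℚ (m + 1) X) = 0 := by
  rw [kl_of_mem (Submodule.zero_mem _)]
  exact map_zero (HH.mk ℚ m X)

theorem kl_sum {ι : Type} {m : ℕ} (S : Finset ι) (x : ι → Ch ℚ (m + 1) X)
    (hx : ∀ i ∈ S, x i ∈ ZZ ℚ m X) : kl m (∑ i ∈ S, x i) = ∑ i ∈ S, kl m (x i) := by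
  classical
  induction S using Finset.induction_on with
  | empty => rw [Finset.sum_empty, Finset.sum_empty, kl_zero]
  | insert a S ha ih =>
    rw [Finset.sum_insert ha, Finset.sum_insert ha,
      kl_add (hx a (Finset.mem_insert_self a S)) (Submodule.sum_mem _ (fun i hi =>
        hx i (Finset.mem_insert_of_mem hi))), ih (fun i hi => hx i (Finset.mem_insert_of_mem hi))]

theorem bd_mem_ZZ {m : ℕ} (y : Ch ℚ (m + 2) X) : bd ℚ (m + 1) X y ∈ ZZ ℚ m X :=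
  BB_le_ZZ ℚ m ⟨y, rfl⟩

theorem kl_bd {m : ℕ} (y : Ch ℚ (m + 2) X) : kl m (bd ℚ (m + 1) X y) = 0 := by
  rw [kl_of_mem (bd_mem_ZZ y), HH.mk_eq_zero_iff]
  exact ⟨y, rfl⟩

theorem kl_pf {m : ℕ} (g : C(X, X')) {x : Ch ℚ (m + 1) X} (hx : x ∈ ZZ ℚ m X) :
    kl m (pf ℚ (m + 1) g x) = HH.map ℚ m g (kl m x) := by
  rw [kl_of_mem hx, kl_of_mem (HH.pf_mem_ZZ ℚ g hx), HH.map_mk]
  rfl

theorem kl_homotopic (hHM : Pool.Agent.H64.LB.T_HM) {m : ℕ} {g g' : C(X, X')}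
    (h : g.Homotopic g') {x : Ch ℚ (m + 1) X} (hx : x ∈ ZZ ℚ m X) :
    kl m (pf ℚ (m + 1) g x) = kl m (pf ℚ (m + 1) g' x) := by
  rw [kl_pf g hx, kl_pf g' hx, hHM ℚ X X' g g' h m]

end kl

noncomputable section

variable {A B : Type} [TopologicalSpace A] [TopologicalSpace B] (f : C(A, B)) (a0 : A)
  [SimplyConnectedSpace A]

/-- the inclusion over a face of a simplex of the path space -/
def emc {n N : ℕ} (e : Smp N (EE f)) (δ : C(Dl n, Dl N)) :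
    C(Es f a0 (prS f a0 (e.comp δ)), Es f a0 (prS f a0 e)) :=
  em f a0 (r := prS f a0 (e.comp δ)) (s := prS f a0 e) δ rfl

/-- the inclusion over the `i`-th face of a simplex of the path space -/
def emf {n : ℕ} (e : Smp (n + 1) (EE f)) (i : Fin (n + 1)) :
    C(Es f a0 (prS f a0 (fc e i)), Es f a0 (prS f a0 e)) :=
  em f a0 (r := prS f a0 (fc e i)) (s := prS f a0 e) (cf i) rfl

theorem pf_emf_emf (D : ∀ (n : ℕ) (e : Smp n (EE f)), Ch ℚ (n + 1) (Es f a0 (prS f a0 e)))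
    {n : ℕ} (e : Smp (n + 2) (EE f)) (i : Fin (n + 2)) (j : Fin (n + 1)) :
    pf ℚ (n + 1) (emf f a0 e i) (pf ℚ (n + 1) (emf f a0 (fc e i) j) (D n (fc (fc e i) j))) =
      pf ℚ (n + 1) (emc f a0 e ((cf i).comp (cf j))) (D n (e.comp ((cf i).comp (cf j)))) := by
  rw [← HH.pf_comp]
  rfl

theorem dD_eq (D : ∀ (n : ℕ) (e : Smp n (EE f)), Ch ℚ (n + 1) (Es f a0 (prS f a0 e))) (n : ℕ)
    (e : Smp (n + 1) (EE f)) : dD f a0 D n e =
      ∑ i : Fin (n + 1), (-1 : ℚ) ^ (i : ℕ) • pf ℚ (n + 1) (emf f a0 e i) (D n (fc e i)) :=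
  rfl

theorem pf_emc_congr (D : ∀ (n : ℕ) (e : Smp n (EE f)), Ch ℚ (n + 1) (Es f a0 (prS f a0 e)))
    {n N : ℕ} (e : Smp N (EE f)) {δ δ' : C(Dl n, Dl N)} (h : δ = δ') :
    pf ℚ (n + 1) (emc f a0 e δ) (D n (e.comp δ)) =
      pf ℚ (n + 1) (emc f a0 e δ') (D n (e.comp δ')) := by
  subst h
  rfl

/-- the tautological simplices form a chain -/
theorem sum_tau {n : ℕ} (e : Smp (n + 1) (EE f)) :
    ∑ i : Fin (n + 1), (-1 : ℚ) ^ (i : ℕ) •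
      pf ℚ n (emf f a0 e i) (Finsupp.single (tau f a0 (fc e i)) 1) =
      bd ℚ n (Es f a0 (prS f a0 e)) (Finsupp.single (tau f a0 e) 1) := by
  rw [bd_single, one_smul]
  refine Finset.sum_congr rfl (fun i _ => ?_)
  congr 1
  exact pf_single n (emf f a0 e i) (tau f a0 (fc e i)) 1

theorem sum_dD (D : ∀ (n : ℕ) (e : Smp n (EE f)), Ch ℚ (n + 1) (Es f a0 (prS f a0 e))) (n : ℕ)
    (e : Smp (n + 2) (EE f)) :
    ∑ i : Fin (n + 2), (-1 : ℚ) ^ (i : ℕ) •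
      pf ℚ (n + 1) (emf f a0 e i) (dD f a0 D n (fc e i)) = 0 := by
  have h1 : ∀ i : Fin (n + 2), (-1 : ℚ) ^ (i : ℕ) •
      pf ℚ (n + 1) (emf f a0 e i) (dD f a0 D n (fc e i)) =
      ∑ j : Fin (n + 1), ((-1 : ℚ) ^ (i : ℕ) * (-1 : ℚ) ^ (j : ℕ)) •
        pf ℚ (n + 1) (emc f a0 e ((cf i).comp (cf j))) (D n (e.comp ((cf i).comp (cf j)))) := by
    intro i
    rw [dD_eq, map_sum, Finset.smul_sum]
    refine Finset.sum_congr rfl (fun j _ => ?_)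
    rw [map_smul, smul_smul, pf_emf_emf]
  rw [Finset.sum_congr rfl (fun i _ => h1 i)]
  exact alt_sum_zero ℚ n
    (fun i j => pf ℚ (n + 1) (emc f a0 e ((cf i).comp (cf j))) (D n (e.comp ((cf i).comp (cf j)))))
    (fun i j hij => pf_emc_congr f a0 D e (cf_comp_cf i j hij))

variable {f a0}

/-- the difference chain -/
def cc {m : ℕ} (P : Phi f a0 m) (D : DH f a0 P) (e : Smp (m + 1) (EE f)) :
    Ch ℚ (m + 1) (Es f a0 (prS f a0 e)) :=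
  Finsupp.single (tau f a0 e) 1 - P.φ (m + 1) (prS f a0 e) - dD f a0 D.D m e

theorem bd_cc {m : ℕ} (hm : 1 ≤ m) (P : Phi f a0 m) (D : DH f a0 P) (e : Smp (m + 1) (EE f)) :
    bd ℚ m (Es f a0 (prS f a0 e)) (cc P D e) = 0 := by
  obtain ⟨q, rfl⟩ : ∃ q, m = q + 1 := ⟨m - 1, by omega⟩
  have h1 : bd ℚ (q + 1) (Es f a0 (prS f a0 e)) (dD f a0 D.D (q + 1) e) =
      ∑ i : Fin (q + 2), (-1 : ℚ) ^ (i : ℕ) •
        pf ℚ (q + 1) (emf f a0 e i) (Finsupp.single (tau f a0 (fc e i)) 1) -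
      ∑ i : Fin (q + 2), (-1 : ℚ) ^ (i : ℕ) •
        pf ℚ (q + 1) (emf f a0 e i) (P.φ (q + 1) (prS f a0 (fc e i))) -
      ∑ i : Fin (q + 2), (-1 : ℚ) ^ (i : ℕ) •
        pf ℚ (q + 1) (emf f a0 e i) (dD f a0 D.D q (fc e i)) := by
    rw [dD_eq, map_sum, ← Finset.sum_sub_distrib, ← Finset.sum_sub_distrib]
    refine Finset.sum_congr rfl (fun i _ => ?_)
    rw [map_smul, bd_pf, D.bd q (Nat.lt_succ_self q), map_sub, map_sub, smul_sub, smul_sub]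
  have h2 : bd ℚ (q + 1) (Es f a0 (prS f a0 e)) (P.φ (q + 1 + 1) (prS f a0 e)) =
      ∑ i : Fin (q + 2), (-1 : ℚ) ^ (i : ℕ) •
        pf ℚ (q + 1) (emf f a0 e i) (P.φ (q + 1) (prS f a0 (fc e i))) :=
    P.bd (q + 1) le_rfl (prS f a0 e)
  rw [cc, map_sub, map_sub, h1, h2, sum_dD, sum_tau]
  abel

end

end Pool.Agent.H97.LB
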